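import Pool.Agent.U50.MC.Stm

/-!
# Project MC, package RED: reduction of polynomial vectors modulo integral ones
-/

set_option autoImplicit false

namespace Pool.Agent.U263.MC

open Polynomial
open Pool.Agent.U50.MC (Nil S_RED)

lemma deg_aeval {σ : Type} (D : ℕ) (p : MvPolynomial σ ℝ) :
    ∃ D' : ℕ, ∀ f : σ → ℝ[X], (∀ i, (f i).natDegree ≤ D) →
      (MvPolynomial.aeval f p).natDegree ≤ D' := by
  induction p using MvPolynomial.induction_on with
  | C a =>
    refine ⟨0, fun f _ => ?_⟩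
    rw [MvPolynomial.aeval_C, Polynomial.algebraMap_eq, natDegree_C]
  | add p q hp hq =>
    obtain ⟨D1, h1⟩ := hp
    obtain ⟨D2, h2⟩ := hq
    refine ⟨max D1 D2, fun f hf => ?_⟩
    rw [map_add]
    exact (natDegree_add_le _ _).trans (max_le_max (h1 f hf) (h2 f hf))
  | mul_X p i hp =>
    obtain ⟨D1, h1⟩ := hp
    refine ⟨D1 + D, fun f hf => ?_⟩
    rw [map_mul, MvPolynomial.aeval_X]
    exact natDegree_mul_le.trans (add_le_add (h1 f hf) (hf i))

lemma aeval_congr {σ : Type} {p : MvPolynomial σ ℝ} {f g : σ → ℝ[X]}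
    (h : ∀ v ∈ p.vars, f v = g v) : MvPolynomial.aeval f p = MvPolynomial.aeval g p := by
  rw [MvPolynomial.aeval_eq_eval₂Hom, MvPolynomial.aeval_eq_eval₂Hom]
  exact MvPolynomial.eval₂Hom_congr' rfl (fun i hi _ => h i hi) rfl

/-- the coordinate `k` of the product -/
noncomputable def yy {d : ℕ} (G : Nil d) (x : Fin d → ℝ[X]) (γ : Fin d → ℤ[X]) (k : Fin d) : ℝ[X] :=
  x k + (γ k).map (Int.castRingHom ℝ) +
    MvPolynomial.aeval (Sum.elim x (fun j => (γ j).map (Int.castRingHom ℝ))) (G.P k)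

lemma step_congr {d : ℕ} (G : Nil d) (x : Fin d → ℝ[X]) (γ γ' : Fin d → ℤ[X]) (k : Fin d)
    (h : ∀ j, j < k → γ j = γ' j) :
    MvPolynomial.aeval (Sum.elim x (fun j => (γ j).map (Int.castRingHom ℝ))) (G.P k) =
    MvPolynomial.aeval (Sum.elim x (fun j => (γ' j).map (Int.castRingHom ℝ))) (G.P k) := by
  refine aeval_congr fun v hv => ?_
  obtain ⟨j, hj, rfl | rfl⟩ := G.tri k v hv
  · rfl
  · simp only [Sum.elim_inr]
    rw [h j hj]

/-- the polynomial with the coefficients `- ⌊u_t⌋` -/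
lemma exists_floor (u : ℝ[X]) (D : ℕ) (hu : u.natDegree ≤ D) :
    ∃ g : ℤ[X], g.natDegree ≤ D ∧ ∀ t, g.coeff t = -⌊u.coeff t⌋ := by
  refine ⟨∑ t ∈ Finset.range (D + 1), monomial t (-⌊u.coeff t⌋), ?_, fun t => ?_⟩
  · refine natDegree_sum_le_of_forall_le _ _ fun t ht => ?_
    exact (natDegree_monomial_le _).trans (by have := Finset.mem_range.1 ht; omega)
  · rw [finset_sum_coeff]
    simp only [coeff_monomial]
    rw [Finset.sum_ite_eq']
    split_ifs with h
    · rfl
    · rw [coeff_eq_zero_of_natDegree_lt, Int.floor_zero, neg_zero]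
      rw [Finset.mem_range] at h
      omega

lemma ind {d : ℕ} (G : Nil d) (E : ℕ) (m : ℕ) (hm : m ≤ d) : ∃ D : ℕ, ∀ x : Fin d → ℝ[X],
    (∀ k, (x k).natDegree ≤ E) → ∃ γ : Fin d → ℤ[X], (∀ k, (γ k).natDegree ≤ D) ∧
      ∀ k : Fin d, k.val < m → (yy G x γ k).natDegree ≤ D ∧
        ∀ t, 0 ≤ (yy G x γ k).coeff t ∧ (yy G x γ k).coeff t ≤ 1 := by
  induction m with
  | zero =>
    exact ⟨0, fun x _ => ⟨fun _ => 0, fun k => by simp, fun k hk => absurd hk (Nat.not_lt_zero _)⟩⟩
  | succ m ih =>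
    obtain ⟨D, hD⟩ := ih (by omega)
    obtain ⟨D', hD'⟩ := deg_aeval (max E D) (G.P ⟨m, hm⟩)
    refine ⟨max (max E D) D', fun x hx => ?_⟩
    obtain ⟨γ, h1, h2⟩ := hD x hx
    obtain ⟨u, hu⟩ : ∃ u : ℝ[X], u = x ⟨m, hm⟩ +
        MvPolynomial.aeval (Sum.elim x (fun j => (γ j).map (Int.castRingHom ℝ))) (G.P ⟨m, hm⟩) :=
      ⟨_, rfl⟩
    have hud : u.natDegree ≤ max (max E D) D' := by
      rw [hu]
      refine (natDegree_add_le _ _).trans (max_le ?_ ?_)
      · exact (hx _).trans ((le_max_left _ _).trans (le_max_left _ _))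
      · refine (hD' _ ?_).trans (le_max_right _ _)
        rintro (j | j)
        · exact (hx j).trans (le_max_left _ _)
        · exact natDegree_map_le.trans ((h1 j).trans (le_max_right _ _))
    obtain ⟨g, hg1, hg2⟩ := exists_floor u _ hud
    obtain ⟨γ', hγ'⟩ : ∃ γ' : Fin d → ℤ[X], γ' = Function.update γ ⟨m, hm⟩ g := ⟨_, rfl⟩
    have hne : ∀ j : Fin d, j < ⟨m, hm⟩ → γ' j = γ j := by
      intro j hj
      rw [hγ']
      exact Function.update_of_ne (ne_of_lt hj) _ _
    have hself : γ' ⟨m, hm⟩ = g := by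
      rw [hγ']
      exact Function.update_self _ _ _
    refine ⟨γ', fun k => ?_, fun k hk => ?_⟩
    · by_cases hkm : k = ⟨m, hm⟩
      · rw [hkm, hself]
        exact hg1
      · rw [hγ', Function.update_of_ne hkm]
        exact (h1 k).trans ((le_max_right _ _).trans (le_max_left _ _))
    · rcases Nat.lt_or_ge k.val m with hlt | hge
      · have e : yy G x γ' k = yy G x γ k := by
          unfold yy
          rw [hne k hlt, step_congr G x γ' γ k fun j hj => hne j (lt_trans hj hlt)]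
        rw [e]
        obtain ⟨h3, h4⟩ := h2 k hlt
        exact ⟨h3.trans ((le_max_right _ _).trans (le_max_left _ _)), h4⟩
      · have hkm : k = ⟨m, hm⟩ := Fin.ext (by show k.val = m; omega)
        subst hkm
        have e : yy G x γ' ⟨m, hm⟩ = u + g.map (Int.castRingHom ℝ) := by
          unfold yy
          rw [hself, step_congr G x γ' γ _ hne, hu]
          ring
        rw [e]
        refine ⟨?_, fun t => ?_⟩
        · exact (natDegree_add_le _ _).trans (max_le hud (natDegree_map_le.trans hg1))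
        · have e2 : (u + g.map (Int.castRingHom ℝ)).coeff t = Int.fract (u.coeff t) := by
            rw [coeff_add, coeff_map, hg2, ← Int.self_sub_floor (u.coeff t), eq_intCast,
              Int.cast_neg, sub_eq_add_neg]
          rw [e2]
          exact ⟨Int.fract_nonneg _, (Int.fract_lt_one _).le⟩

theorem t_RED : S_RED := by
  intro d G E
  obtain ⟨D, hD⟩ := ind G E d le_rfl
  refine ⟨D, fun x hx => ?_⟩
  obtain ⟨γ, -, h2⟩ := hD x hx
  exact ⟨γ, yy G x γ, fun k => rfl, fun k => (h2 k k.2).1, fun k t => (h2 k k.2).2 t⟩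

end Pool.Agent.U263.MC
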